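import Pool.Agent.Helper509.CK.CKmain
import Pool.Agent.Helper509.CK.Pair

/-! The unitization of `K(C(K))`, `K` a countable compact metric space, is a Calkin algebra. -/

set_option autoImplicit false

namespace Pool.Agent.Results.MP_6375c7_an.CountableCompact

open Pool.Agent.R184CA Pool.Agent.Helper509.CK

universe u

theorem result (𝕜 : Type) [RCLike 𝕜] (K : Type u) [MetricSpace K] [CompactSpace K]
    [Countable K] : UnitizedCompactIsCalkin 𝕜 C(K, 𝕜) :=
  unitized_of_isCalkin (calkin_KCK 𝕜 K)

end Pool.Agent.Results.MP_6375c7_an.CountableCompact
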